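import Pool.Agent.Lib.MP_1a91b9_ntV.DJ.Dsj7
import Pool.Agent.Lib.MP_1a91b9_ntV.F.FinV
import Pool.Agent.Lib.MP_1a91b9_ntV.Q.MainV
import Pool.Agent.Lib.MP_1a91b9_ntW.J.TrK
import Pool.Agent.Lib.MP_1a91b9_ntY.Fms
import Pool.Agent.Lib.MP_1a91b9_ntI.IsoQ

/-!
# Phase 7, `ℚ(√-7)`: the rank part of the conjecture of Birch and Swinnerton-Dyer for the curves
`y² = x (x + d) (x + d (1 - t)⁴)`, `t² = t - 2`, over all the multiquadratic extensions of `ℚ(√-7)`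
-/

set_option autoImplicit false
set_option linter.unusedSectionVars false

namespace Pool.Agent.Lib.MP_1a91b9_ntV.J

open NumberField IsDedekindDomain Finset WeierstrassCurve
open Pool.Agent.Lib.MP_1a91b9_ntV Pool.Agent.Lib.MP_1a91b9_nuT
open Pool.Agent.Lib.MP_1a91b9_nuX.LG (LConcl)
open Pool.Agent.Lib.MP_1a91b9_ntN.G (MQT)
open Pool.Agent.Lib.MP_1a91b9_ntY (Tdq chainQ lconcl_iso finite_iso finite_iso' fm_q)
open Pool.Agent.Lib.MP_1a91b9_nuX.PH (Fm)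
open Pool.Agent.Lib.MP_1a91b9_ntV.L (dE WE serF_ne locF)
open Pool.Agent.Lib.MP_1a91b9_ntV.DS (cinfV)
open Pool.Agent.Lib.MP_1a91b9_ntW.J (RkZ PropGE MQG MQC Cls2)

noncomputable section

/-! ### Over `K7` -/

/-- The L-value does not vanish. -/
theorem LS_ne' {d0 d1 d2 : ZMod 2} {S : Finset Pg7} (h : Cr.Good D7 S d0 d1 d2) :
    LS d0 d1 d2 S ≠ 0 := by
  by_cases h0 : S = ∅ ∧ d1 = 0 ∧ d2 = 0
  · obtain ⟨rfl, rfl, rfl⟩ := h0
    intro h1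
    have h2 := F.LS_unit d0
    rw [h1, norm_zero] at h2
    norm_num at h2
  · exact LS_ne h0 h

/-- The group of points is finite. -/
theorem fin_pts {d0 d1 d2 : ZMod 2} {S : Finset Pg7} (h : Cr.Good D7 S d0 d1 d2) :
    Finite (WE (dE d0 d1 d2 S)).toAffine.Point := by
  by_cases h0 : S = ∅ ∧ d1 = 0 ∧ d2 = 0
  · obtain ⟨rfl, rfl, rfl⟩ := h0
    exact (C.exc7 d0).2.1
  · exact (C.good7_main h0 h).1

/-- **Over `K7`.** -/
theorem WE_good {d0 d1 d2 : ZMod 2} {S : Finset Pg7} (h : Cr.Good D7 S d0 d1 d2) :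
    LConcl (WE (dE d0 d1 d2 S)) ∧ Finite (WE (dE d0 d1 d2 S)).toAffine.Point :=
  ⟨serF_ne (locF _) (LS_ne' h), fin_pts h⟩

/-! ### The curves -/

/-- the curve `y² = x (x + δ) (x + δ (1 - τ)⁴)` -/
def c7 {F : Type*} [Field F] (τ δ : F) : WeierstrassCurve F :=
  ⟨0, δ * (1 + (1 - τ) ^ 4), 0, δ ^ 2 * (1 - τ) ^ 4, 0⟩

theorem WE_c7 (d : 𝓞 K7) : WE d = c7 (t7 : K7) (d : K7) := WE_K7 d

theorem Tdq_c7 (F : Type*) [Field F] [Algebra K7 F] (d : 𝓞 K7) :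
    Tdq F (1 + (1 - (t7 : K7)) ^ 4) ((1 - (t7 : K7)) ^ 4) 0 d =
      c7 (algebraMap K7 F t7) (algebraMap K7 F d) := by
  show (⟨0, algebraMap K7 F ((d : K7) * (1 + (1 - (t7 : K7)) ^ 4)), 0,
    algebraMap K7 F ((d : K7) ^ 2 * (1 - (t7 : K7)) ^ 4),
    algebraMap K7 F ((d : K7) ^ 3 * 0)⟩ : WeierstrassCurve F) = _
  unfold c7
  rw [map_mul, map_mul, map_pow, map_add, map_one, map_pow, map_sub, map_one, mul_zero, map_zero]

theorem c7_iso {F : Type*} [Field F] (τ δ : F) {t : F} (ht : t ≠ 0) :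
    (⟨Units.mk0 t ht, 0, 0, 0⟩ : VariableChange F) • c7 τ (δ * t ^ 2) = c7 τ δ := by
  rw [c7, c7]
  ext
  · simp [variableChange_a₁]
  · simp only [variableChange_a₂, Units.val_inv_eq_inv_val, Units.val_mk0]
    field_simp
    ring
  · simp [variableChange_a₃]
  · simp only [variableChange_a₄, Units.val_inv_eq_inv_val, Units.val_mk0]
    field_simp
    ring
  · simp [variableChange_a₆]

theorem ellK7 : Pool.Agent.Lib.MP_1a91b9_nuX.GL.EllK :=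
  Pool.Agent.Lib.MP_1a91b9_nuX.GL.ellK_two (by decide)

theorem t7_sq' : (t7 : K7) ^ 2 = (t7 : K7) - 2 := by
  have h := congrArg (fun x : 𝓞 K7 => (x : K7)) t7_sq
  push_cast at h
  exact h

/-- the form of the curve -/
theorem fm7 {F : Type*} [Field F] [NumberField F] [Algebra K7 F] {δ : F} (hδ : δ ≠ 0) :
    Fm (c7 (algebraMap K7 F t7) δ) := by
  obtain ⟨τ, hτ⟩ : ∃ τ, τ = algebraMap K7 F t7 := ⟨_, rfl⟩
  have hq : τ ^ 2 = τ - 2 := by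
    rw [hτ, ← map_pow, t7_sq', map_sub, map_ofNat]
  have hs : (1 - 2 * τ) ^ 2 = -7 := by linear_combination 4 * hq
  have hs0 : 1 - 2 * τ ≠ 0 := by
    intro h
    rw [h] at hs
    norm_num at hs
  rw [← hτ]
  refine fm_q (δ := (1 - 2 * τ) * δ / 28) ?_ ?_ ?_
  · exact div_ne_zero (mul_ne_zero hs0 hδ) (by norm_num)
  · show δ ^ 2 * (1 - τ) ^ 4 - (δ * (1 + (1 - τ) ^ 4)) ^ 2 / 3 =
      ((1 - 2 * τ) * δ / 28) ^ 2 * (((-560 : ℤ) : ℤ) : F)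
    have h4 : (1 - τ) ^ 4 = 3 * τ - 1 := by
      linear_combination (τ ^ 2 - 3 * τ + 1) * hq
    rw [h4]
    push_cast
    linear_combination (-3 * δ ^ 2) * hq + (5 / 7 * δ ^ 2) * hs
  · show 0 - δ * (1 + (1 - τ) ^ 4) * (δ ^ 2 * (1 - τ) ^ 4) / 3 +
      2 * (δ * (1 + (1 - τ) ^ 4)) ^ 3 / 27 =
      ((1 - 2 * τ) * δ / 28) ^ 3 * (((-6272 : ℤ) : ℤ) : F)
    have h4 : (1 - τ) ^ 4 = 3 * τ - 1 := by
      linear_combination (τ ^ 2 - 3 * τ + 1) * hq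
    rw [h4]
    push_cast
    linear_combination (δ ^ 3 * (2 * τ - 1)) * hq + (2 / 7 * (1 - 2 * τ) * δ ^ 3) * hs

/-- the conclusion does not change if `δ` is multiplied by a square -/
theorem c7_sq {F : Type*} [Field F] [NumberField F] [Algebra K7 F] {δ t : F} (hδ : δ ≠ 0)
    (ht : t ≠ 0) :
    (LConcl (c7 (algebraMap K7 F t7) (δ * t ^ 2)) ∧
      Finite (c7 (algebraMap K7 F t7) (δ * t ^ 2)).toAffine.Point) ↔
      (LConcl (c7 (algebraMap K7 F t7) δ) ∧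
        Finite (c7 (algebraMap K7 F t7) δ).toAffine.Point) := by
  have h1 := c7_iso (algebraMap K7 F t7) δ ht
  constructor
  · rintro ⟨h2, h3⟩
    exact ⟨lconcl_iso ellK7 (fm7 (mul_ne_zero hδ (pow_ne_zero 2 ht))) _ h1 h2,
      finite_iso _ h1 h3⟩
  · rintro ⟨h2, h3⟩
    refine ⟨lconcl_iso ellK7 (fm7 hδ) (⟨Units.mk0 t ht, 0, 0, 0⟩ : VariableChange F)⁻¹ ?_ h2,
      finite_iso' _ h1 h3⟩
    rw [← h1, inv_smul_smul]

/-- **All the twists.** -/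
theorem WE_all {a d : 𝓞 K7} (h : ∃ (d0 d1 d2 : ZMod 2) (S : Finset Pg7) (t : 𝓞 K7),
    t ≠ 0 ∧ a * d = (-1) ^ d0.val * ta ^ d1.val * tb ^ d2.val * DD S * t ^ 2 ∧
      Good7 D7 S d0 d1 d2) :
    LConcl (WE (a * d)) ∧ Finite (WE (a * d)).toAffine.Point := by
  obtain ⟨d0, d1, d2, S, t, ht, h1, hG⟩ := h
  have h1' : a * d = dE d0 d1 d2 S * t ^ 2 := h1
  have e : ((dE d0 d1 d2 S * t ^ 2 : 𝓞 K7) : K7) = (dE d0 d1 d2 S : K7) * (t : K7) ^ 2 := by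
    push_cast
    rfl
  have hne : ((dE d0 d1 d2 S : 𝓞 K7) : K7) ≠ 0 := by
    have := L.dE_ne d0 d1 d2 S
    exact_mod_cast this
  have h2 := (c7_sq (F := K7) (δ := (dE d0 d1 d2 S : K7)) (t := (t : K7)) hne
    (by exact_mod_cast ht)).2 (by
      have h3 := WE_good hG
      rw [WE_c7] at h3
      exact h3)
  rw [h1', WE_c7, e]
  exact h2

/-! ### The result -/

theorem exists_sq_mul {d₀ : K7} : ∃ (δ ν : 𝓞 K7), ν ≠ 0 ∧ (δ : K7) = d₀ * (ν : K7) ^ 2 := by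
  obtain ⟨⟨x, y⟩, hxy⟩ := IsLocalization.surj (nonZeroDivisors (𝓞 K7)) d₀
  refine ⟨x * y, y, nonZeroDivisors.ne_zero y.2, ?_⟩
  have e : ((x * (y : 𝓞 K7) : 𝓞 K7) : K7) = (x : K7) * ((y : 𝓞 K7) : K7) := by
    push_cast
    rfl
  have h : d₀ * (((y : 𝓞 K7) : 𝓞 K7) : K7) = ((x : 𝓞 K7) : K7) := hxy
  rw [e, ← h]
  ring

/-- **The rank part over every multiquadratic extension of `ℚ(√-7)`.** -/
theorem main_mq7 (F : Type) [Field F] [NumberField F] [Algebra K7 F]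
    (hF : IntermediateField.adjoin K7 {x : F | ∃ c : K7, x ^ 2 = algebraMap K7 F c} = ⊤)
    {d₀ : K7} (hd₀ : d₀ ≠ 0) {m u : 𝓞 K7} (hmu : Cls2 K7 m u) :
    PropGE K7 m u (fun d => RkZ (c7 (algebraMap K7 F t7) (algebraMap K7 F (d₀ * d))))
      ((∏' i : ℕ, (1 - 1 / (2 : ℝ) ^ (i + 1))) ^ Module.finrank K7 F) := by
  intro ε hε
  obtain ⟨n, hn⟩ := hmu.1
  obtain ⟨A, hA⟩ := MQT.exists_of hF
  have hok := hA.ok
  obtain ⟨δ, ν, hν, hδν⟩ := exists_sq_mul (d₀ := d₀)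
  have hν' : (ν : K7) ≠ 0 := by exact_mod_cast hν
  have hδ' : (δ : K7) ≠ 0 := by
    rw [hδν]
    exact mul_ne_zero hd₀ (pow_ne_zero 2 hν')
  have hδ : δ ≠ 0 := by exact_mod_cast hδ'
  have hlen : (A.map (δ * ·)).length = Module.finrank K7 F := by
    rw [List.length_map, hok.len]
  rw [← hlen, cinfV_form]
  refine den7_all dsj7 (L := A.map (δ * ·)) ?_ ?_ ?_ hn hmu.2 _ (fun d hd h => ?_) ε hε
  · intro h0
    have h00 : (A.map (δ * ·)).length = 0 := congrArg List.length h0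
    rw [h00] at hlen
    exact absurd hlen.symm (Module.finrank_pos (R := K7) (M := F)).ne'
  · intro a ha
    obtain ⟨b, hb, rfl⟩ := List.mem_map.1 ha
    exact mul_ne_zero hδ (hok.ne b hb)
  · rw [List.pairwise_map]
    refine hok.pw.imp fun {a b} h => ?_
    rintro ⟨y, hy⟩
    refine h ⟨y / (δ : K7), ?_⟩
    have e : ((δ * a : 𝓞 K7) : K7) * ((δ * b : 𝓞 K7) : K7) =
        (δ : K7) ^ 2 * ((a : K7) * (b : K7)) := by
      have e1 : ((δ * a : 𝓞 K7) : K7) = (δ : K7) * a := by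
        push_cast
        rfl
      have e2 : ((δ * b : 𝓞 K7) : K7) = (δ : K7) * b := by
        push_cast
        rfl
      rw [e1, e2]
      ring
    have hy' : y ^ 2 = (δ : K7) ^ 2 * ((a : K7) * (b : K7)) := hy.trans e
    rw [div_pow, hy', mul_div_cancel_left₀ _ (pow_ne_zero 2 hδ')]
  · have h1 : LConcl (Tdq F (1 + (1 - (t7 : K7)) ^ 4) ((1 - (t7 : K7)) ^ 4) 0 (δ * d)) ∧
        Finite (Tdq F (1 + (1 - (t7 : K7)) ^ 4) ((1 - (t7 : K7)) ^ 4) 0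
          (δ * d)).toAffine.Point := by
      refine chainQ ellK7 ?_ hA (δ * d) (mul_ne_zero hδ hd.ne_zero) fun b hb => ?_
      · have h1 := fm7 (F := K7) (δ := 1) one_ne_zero
        rw [c7, one_mul, one_pow, one_mul] at h1
        exact h1
      · have h3 := WE_all (h (δ * b) (List.mem_map.2 ⟨b, hb, rfl⟩))
        have e : b * (δ * d) = δ * b * d := by ring
        have e2 := Tdq_c7 K7 (b * (δ * d))
        have e3 : Tdq K7 (1 + (1 - (t7 : K7)) ^ 4) ((1 - (t7 : K7)) ^ 4) 0 (b * (δ * d)) =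
            WE (δ * b * d) := by
          rw [e2, ← e, WE_c7]
          rfl
        rw [← e3] at h3
        exact h3
    rw [Tdq_c7] at h1
    have hd0 : (d : K7) ≠ 0 := by exact_mod_cast hd.ne_zero
    have e : algebraMap K7 F ((δ * d : 𝓞 K7) : K7) =
        algebraMap K7 F (d₀ * d) * (algebraMap K7 F (ν : K7)) ^ 2 := by
      have e1 : ((δ * d : 𝓞 K7) : K7) = (δ : K7) * d := by
        push_cast
        rfl
      rw [e1, hδν, ← map_pow (algebraMap K7 F), ← map_mul (algebraMap K7 F)]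
      congr 1
      ring
    rw [e] at h1
    refine (c7_sq ?_ ?_).1 h1
    · rw [Ne, map_eq_zero]
      exact mul_ne_zero hd₀ hd0
    · rw [Ne, map_eq_zero]
      exact hν'

/-- The form for the curves `y² = x (x + d₀) (x + d₀ (1 - t7)⁴)`. -/
theorem mqc7 {d₀ : K7} (hd₀ : d₀ ≠ 0) :
    MQC K7 (d₀ * (1 + (1 - (t7 : K7)) ^ 4)) (d₀ ^ 2 * (1 - (t7 : K7)) ^ 4)
      (∏' i : ℕ, (1 - 1 / (2 : ℝ) ^ (i + 1))) := by
  intro F _ _ _ hF m u hmu
  have h1 := main_mq7 F hF hd₀ hmu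
  have e : ∀ d : 𝓞 K7, c7 (algebraMap K7 F t7) (algebraMap K7 F (d₀ * d)) =
      ⟨0, algebraMap K7 F (d * (d₀ * (1 + (1 - (t7 : K7)) ^ 4))), 0,
        algebraMap K7 F ((d : K7) ^ 2 * (d₀ ^ 2 * (1 - (t7 : K7)) ^ 4)), 0⟩ := by
    intro d
    have e1 : (d : K7) * (d₀ * (1 + (1 - (t7 : K7)) ^ 4)) =
        d₀ * d * (1 + (1 - (t7 : K7)) ^ 4) := by ring
    have e2 : (d : K7) ^ 2 * (d₀ ^ 2 * (1 - (t7 : K7)) ^ 4) =
        (d₀ * d) ^ 2 * (1 - (t7 : K7)) ^ 4 := by ring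
    rw [e1, e2, map_mul _ (d₀ * d), map_mul _ ((d₀ * d) ^ 2), map_pow _ (d₀ * d), map_add, map_one,
      map_pow, map_sub, map_one]
    rfl
  have e' : (fun d : 𝓞 K7 => RkZ (c7 (algebraMap K7 F t7) (algebraMap K7 F (d₀ * d)))) =
      fun d : 𝓞 K7 => RkZ (⟨0, algebraMap K7 F (d * (d₀ * (1 + (1 - (t7 : K7)) ^ 4))), 0,
        algebraMap K7 F ((d : K7) ^ 2 * (d₀ ^ 2 * (1 - (t7 : K7)) ^ 4)), 0⟩ :
        WeierstrassCurve F) := by
    funext d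
    rw [e]
  rw [e'] at h1
  exact h1

/-- **The rank part over every multiquadratic extension of a field generated by a root of
`θ² = θ - 2`.** -/
theorem mqcK7 {K : Type} [Field K] [NumberField K] (hK : Module.finrank ℚ K = 2) {θ : K}
    (hθ : θ ^ 2 = θ - 2) {d₀ : K} (hd₀ : d₀ ≠ 0) :
    MQC K (d₀ * (1 + (1 - θ) ^ 4)) (d₀ ^ 2 * (1 - θ) ^ 4)
      (∏' i : ℕ, (1 - 1 / (2 : ℝ) ^ (i + 1))) := by
  obtain ⟨e, he⟩ := Pool.Agent.Lib.MP_1a91b9_ntI.iso_th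
    (K := K7) (Pool.Agent.Lib.MP_1a91b9_nuT.finrank_K : Module.finrank ℚ K7 = 2) hK t7_sq' hθ
  have h0 : e.symm d₀ ≠ 0 := by
    rw [Ne, map_eq_zero_iff _ e.symm.injective]
    exact hd₀
  have h2 := (mqc7 h0).tr e
  have e1 : e (e.symm d₀ * (1 + (1 - (t7 : K7)) ^ 4)) = d₀ * (1 + (1 - θ) ^ 4) := by
    rw [map_mul, e.apply_symm_apply, map_add, map_one, map_pow, map_sub, map_one, he]
  have e2 : e (e.symm d₀ ^ 2 * (1 - (t7 : K7)) ^ 4) = d₀ ^ 2 * (1 - θ) ^ 4 := by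
    rw [map_mul, map_pow, e.apply_symm_apply, map_pow, map_sub, map_one, he]
  rwa [e1, e2] at h2

end

end Pool.Agent.Lib.MP_1a91b9_ntV.J
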