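import Pool.Agent.Lib.MP_1a91b9_ntV.J.Main7
import Pool.Agent.Lib.MP_1a91b9_ntW.J.TwK
import Pool.Agent.Lib.MP_1a91b9_ntI.EndI

/-!
# Phase 7, `ℚ(√-7)`: all the elliptic curves with complex multiplication by the ring of integers and
all the multiquadratic extensions
-/

set_option autoImplicit false
set_option linter.unusedSectionVars false

namespace Pool.Agent.Lib.MP_1a91b9_ntV.J

open NumberField WeierstrassCurve
open Pool.Agent.Lib.MP_1a91b9_ntL (Endo2 endo2_iff)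
open Pool.Agent.Lib.MP_1a91b9_ntI (excl1 excl2 excl3 th7)
open Pool.Agent.Lib.MP_1a91b9_nuI (HasJ)
open Pool.Agent.Lib.MP_1a91b9_ntW.J (MQW MQG Cls2)

theorem c4_crv {K : Type*} [Field K] (a b : K) : (MP_1a91b9_ntL.crv a b).c₄ = 16 * (a ^ 2 - 3 * b) := by
  unfold MP_1a91b9_ntL.crv WeierstrassCurve.c₄ WeierstrassCurve.b₂ WeierstrassCurve.b₄
  ring

theorem disc_crv {K : Type*} [Field K] (a b : K) :
    (MP_1a91b9_ntL.crv a b).Δ = 16 * (b ^ 2 * (a ^ 2 - 4 * b)) := by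
  unfold MP_1a91b9_ntL.crv WeierstrassCurve.Δ WeierstrassCurve.b₂ WeierstrassCurve.b₄ WeierstrassCurve.b₆
    WeierstrassCurve.b₈
  ring

theorem hasJ_crv7 {K : Type*} [Field K] {θ : K} (hθ : θ ^ 2 = θ - 2) (d : K) :
    HasJ (MP_1a91b9_ntL.crv (d * (1 + (1 - θ) ^ 4)) (d ^ 2 * (1 - θ) ^ 4)) (-3375) := by
  have h4 : (1 - θ) ^ 4 = 3 * θ - 1 := by
    linear_combination (θ ^ 2 - 3 * θ + 1) * hθ
  rw [h4]
  unfold HasJ
  rw [c4_crv, disc_crv]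
  have k1 : (d * (1 + (3 * θ - 1))) ^ 2 - 3 * (d ^ 2 * (3 * θ - 1)) = -15 * d ^ 2 := by
    linear_combination (9 * d ^ 2) * hθ
  have k2 : (d ^ 2 * (3 * θ - 1)) ^ 2 *
      ((d * (1 + (3 * θ - 1))) ^ 2 - 4 * (d ^ 2 * (3 * θ - 1))) = 256 * d ^ 6 := by
    have k3 : (3 * θ - 1) ^ 2 = 3 * θ - 17 := by linear_combination 9 * hθ
    have k4 : (d * (1 + (3 * θ - 1))) ^ 2 - 4 * (d ^ 2 * (3 * θ - 1)) = d ^ 2 * (-3 * θ - 14) := by
      linear_combination (9 * d ^ 2) * hθ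
    rw [k4, mul_pow, k3]
    linear_combination (-9 * d ^ 6) * hθ
  rw [k1, k2]
  push_cast
  ring

/-- **Every elliptic curve with an endomorphism of degree two over a quadratic field which contains a
root of `θ² = θ - 2`.** -/
theorem mqwK7 {K : Type} [Field K] [NumberField K] (hK : Module.finrank ℚ K = 2) {θ : K}
    (hθ : θ ^ 2 = θ - 2) {W : WeierstrassCurve K} (hW : Endo2 W) :
    MQW K 2 (Cls2 K) W (∏' i : ℕ, (1 - 1 / (2 : ℝ) ^ (i + 1))) := by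
  rcases (endo2_iff W).1 hW with ⟨i, b, hi, -, -⟩ | ⟨s, d, hs, -, -⟩ | ⟨θ', d, hθ', hd, C, hC⟩
  · exact (excl3 hK (th7 hθ) hi).elim
  · exact (excl2 hK hs (th7 hθ)).elim
  · exact MQG.mqw_vc (mqcK7 hK hθ' hd) (hasJ_crv7 hθ' d) hC

end Pool.Agent.Lib.MP_1a91b9_ntV.J
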